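import Mathlib
import Pool.Agent.Helper26.FD.Asm

set_option autoImplicit false

namespace Pool.Agent.Results.MP_295d38_ag.FullProportion

open MvPolynomial

/-- The `(N + 1)`-tuples `F` of forms of degree `d` in `N + 1` variables with integral coefficients,
such that `|F - B * A| ≤ ε * B` and `F ≡ F₀` modulo `m`, coefficient by coefficient. -/
def box (N d m : ℕ) (A : Fin (N + 1) → MvPolynomial (Fin (N + 1)) ℝ) (ε : ℝ)
    (F₀ : Fin (N + 1) → MvPolynomial (Fin (N + 1)) ℤ) (B : ℕ) :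
    Set (Fin (N + 1) → MvPolynomial (Fin (N + 1)) ℤ) :=
  {F | ∀ i, (F i).IsHomogeneous d ∧ ∀ s, |((coeff s (F i) : ℤ) : ℝ) - B * coeff s (A i)| ≤ ε * B ∧
    (m : ℤ) ∣ coeff s (F i) - coeff s (F₀ i)}

/-- The forms `Fᵢ` have no common zero in `ℂ ^ (N + 1)` except `0`, i.e. they define an endomorphism
of `ℙᴺ`. -/
def IsEndo {N : ℕ} (F : Fin (N + 1) → MvPolynomial (Fin (N + 1)) ℤ) : Prop :=
  ∀ z : Fin (N + 1) → ℂ, (∀ i, aeval z (F i) = 0) → z = 0

/-- The endomorphism of `ℙᴺ` given by the forms `Fᵢ`, in homogeneous coordinates. -/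
noncomputable def endo {N : ℕ} (F : Fin (N + 1) → MvPolynomial (Fin (N + 1)) ℤ)
    (x : Fin (N + 1) → ℂ) : Fin (N + 1) → ℂ :=
  fun i => aeval x (F i)

/-- The return set `{n : Φⁿ(α) ∈ V}` for the endomorphism `Φ` of `ℙᴺ` given by the forms `Fᵢ`, the
point `α` of `ℙᴺ` given by homogeneous coordinates, and the closed subset `V` of `ℙᴺ` cut out by the
forms of the set `V`. -/
def returnSet {N : ℕ} (F : Fin (N + 1) → MvPolynomial (Fin (N + 1)) ℤ) (α : Fin (N + 1) → ℂ)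
    (V : Set (MvPolynomial (Fin (N + 1)) ℂ)) : Set ℕ :=
  {n | ∀ G ∈ V, eval ((endo F)^[n] α) G = 0}

/-- **The dynamical Mordell-Lang conjecture holds completely for a positive proportion of the
endomorphisms of projective space over `ℚ`, of any given degree `d ≥ 2` and in any dimension `N`**:
for all points and all closed subsets of `ℙᴺ` over `ℂ` the return set is a finite union of
arithmetic progressions. The proportion is bounded below in all boxes around `B * A` and in all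
residue classes modulo `m`, by a constant which depends only on `N`, `d` and `m`. -/
theorem result (N d m : ℕ) (hd : 2 ≤ d) (hm : 1 ≤ m) :
    ∃ c : ℝ, 0 < c ∧ ∀ (A : Fin (N + 1) → MvPolynomial (Fin (N + 1)) ℝ) (ε : ℝ)
      (F₀ : Fin (N + 1) → MvPolynomial (Fin (N + 1)) ℤ), (∀ i, (A i).IsHomogeneous d) → 0 < ε →
      (∀ i, (F₀ i).IsHomogeneous d) → ∃ B₀ : ℕ, ∀ B : ℕ, B₀ ≤ B →
        (box N d m A ε F₀ B).Finite ∧ c * ((box N d m A ε F₀ B).ncard : ℝ) ≤
          (({F ∈ box N d m A ε F₀ B | IsEndo F ∧ ∀ α : Fin (N + 1) → ℂ, α ≠ 0 →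
            ∀ V : Set (MvPolynomial (Fin (N + 1)) ℂ), (∀ G ∈ V, ∃ e : ℕ, G.IsHomogeneous e) →
              ∃ S : Finset (ℕ × ℕ), returnSet F α V =
                {n | ∃ q ∈ S, ∃ k, n = q.1 + q.2 * k}}).ncard : ℝ) := by
  obtain ⟨c, hc, h⟩ := Pool.Agent.Helper26.FD.fd_main N d m hd hm
  refine ⟨c, hc, fun A ε F₀ hA hε hF₀ => ?_⟩
  obtain ⟨B₀, hB₀⟩ := h A ε F₀ hA hε hF₀
  refine ⟨B₀, fun B hB => ?_⟩
  obtain ⟨hfin, h1⟩ := hB₀ B hB
  have hbox : box N d m A ε F₀ B = Pool.Agent.Helper26.FD.cbox N d m A ε F₀ B := rfl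
  rw [← hbox] at hfin h1
  refine ⟨hfin, h1.trans (Nat.cast_le.2 (Set.ncard_le_ncard ?_ (hfin.subset fun F hF => hF.1)))⟩
  rintro F ⟨hF, hE, hC⟩
  exact ⟨hF, fun z hz => hE z (funext hz), fun α hα V hV => hC α hα V hV⟩

end Pool.Agent.Results.MP_295d38_ag.FullProportion
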