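import Mathlib
import Pool.Agent.Helper26.PP.Final

set_option autoImplicit false

namespace Pool.Agent.Results.MP_295d38_ag.PositiveProportion

open MvPolynomial

/-- The self-map of `𝔸ᴺ(ℂ) = ℂᴺ` given by `N` polynomials with integral coefficients. -/
noncomputable def polyMap {N : ℕ} (Φ : Fin N → MvPolynomial (Fin N) ℤ) (x : Fin N → ℂ) :
    Fin N → ℂ :=
  fun i => aeval x (Φ i)

/-- The return set `{n : Φⁿ(α) ∈ V}` for the closed subvariety `V` of `𝔸ᴺ` over `ℂ` cut out by the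
polynomials of the set `V`. -/
def returnSet {N : ℕ} (Φ : Fin N → MvPolynomial (Fin N) ℤ) (α : Fin N → ℂ)
    (V : Set (MvPolynomial (Fin N) ℂ)) : Set ℕ :=
  {n | ∀ F ∈ V, eval ((polyMap Φ)^[n] α) F = 0}

/-- The polynomial self-maps `(Φ₁, …, Φ_N)` of `𝔸ᴺ` over `ℤ` of degree at most `d`, all of whose
coefficients are in `[-B, B]`. -/
def box (N d B : ℕ) : Set (Fin N → MvPolynomial (Fin N) ℤ) :=
  {Φ | ∀ i, (Φ i).totalDegree ≤ d ∧ ∀ s, |coeff s (Φ i)| ≤ (B : ℤ)}

/-- **A positive proportion of the integral polynomial self-maps of affine `N`-space of degree at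
most `d`**, `d` even, in every dimension `N = m + 1`, satisfies the dynamical Mordell-Lang conjecture
in the following strong form: for all points with coordinates in a subfield of `ℂ` which can be
embedded in `ℝ`, e.g. all real points, and for all closed subvarieties `V` of `𝔸ᴺ` over `ℂ`, the
return set is finite or cofinite. -/
theorem result (m d : ℕ) (hd : 2 ≤ d) (he : Even d) :
    ∃ c : ℝ, 0 < c ∧ ∃ B₀ : ℕ, ∀ B : ℕ, B₀ ≤ B → (box (m + 1) d B).Finite ∧
      c * ((box (m + 1) d B).ncard : ℝ) ≤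
        (({Φ ∈ box (m + 1) d B | ∀ K : Subfield ℂ, Nonempty (K →+* ℝ) →
          ∀ α : Fin (m + 1) → ℂ, (∀ i, α i ∈ K) →
            ∀ V : Set (MvPolynomial (Fin (m + 1)) ℂ),
              (returnSet Φ α V).Finite ∨ (returnSet Φ α V)ᶜ.Finite}).ncard : ℝ) := by
  obtain ⟨c, hc, B₀, h⟩ := Pool.Agent.Helper26.PP.ppf_main m hd he
  refine ⟨c, hc, B₀, fun B hB => ?_⟩
  obtain ⟨hfin, h1⟩ := h B hB
  have hbox : box (m + 1) d B = Pool.Agent.Helper87.PP.zbox m d B := rfl
  rw [← hbox] at hfin h1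
  refine ⟨hfin, h1.trans (Nat.cast_le.2 (Set.ncard_le_ncard ?_ (hfin.subset fun Φ hΦ => hΦ.1)))⟩
  rintro Φ ⟨hΦ, hC⟩
  refine ⟨hΦ, fun K hK α hα V => ?_⟩
  have hmap : Pool.Agent.Helper86.MQ.pm (fun i => map (Int.castRingHom ℂ) (Φ i)) = polyMap Φ := by
    funext x i
    rw [polyMap, Pool.Agent.Helper86.MQ.pm, eval_map, aeval_def]
    rfl
  have h2 := hC α K hα hK V
  rw [hmap] at h2
  refine h2.imp_right fun ⟨n₁, hn₁⟩ => (Set.finite_lt_nat n₁).subset fun n hn => ?_
  by_contra hcon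
  exact hn (hn₁ n (not_lt.1 hcon))

end Pool.Agent.Results.MP_295d38_ag.PositiveProportion
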