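import Mathlib
import Pool.Agent.Helper26.PN.Final

set_option autoImplicit false

namespace Pool.Agent.Results.MP_295d38_ag.ProjectiveSpace

open MvPolynomial

/-- The `(N + 1)`-tuples of forms of degree `d` in `N + 1` variables with integral coefficients in
`[-B, B]`. -/
def box (N d B : ℕ) : Set (Fin (N + 1) → MvPolynomial (Fin (N + 1)) ℤ) :=
  {F | ∀ i, (F i).IsHomogeneous d ∧ ∀ s, |coeff s (F i)| ≤ (B : ℤ)}

/-- The forms `Fᵢ` have no common zero in `ℂ ^ (N + 1)` except `0`, i.e. they define an endomorphism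
of `ℙᴺ`. -/
def IsEndo {N : ℕ} (F : Fin (N + 1) → MvPolynomial (Fin (N + 1)) ℤ) : Prop :=
  ∀ z : Fin (N + 1) → ℂ, (∀ i, aeval z (F i) = 0) → z = 0

/-- The endomorphism of `ℙᴺ` given by the forms `Fᵢ`, in homogeneous coordinates. -/
noncomputable def endo {N : ℕ} (F : Fin (N + 1) → MvPolynomial (Fin (N + 1)) ℤ)
    (x : Fin (N + 1) → ℂ) : Fin (N + 1) → ℂ :=
  fun i => aeval x (F i)

/-- The return set `{n : Φⁿ(α) ∈ V}` for the endomorphism `Φ` of `ℙᴺ` given by the forms `Fᵢ`, the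
point `α` of `ℙᴺ` given by homogeneous coordinates, and the closed subset `V` of `ℙᴺ` cut out by the
forms of the set `V`. -/
def returnSet {N : ℕ} (F : Fin (N + 1) → MvPolynomial (Fin (N + 1)) ℤ) (α : Fin (N + 1) → ℂ)
    (V : Set (MvPolynomial (Fin (N + 1)) ℂ)) : Set ℕ :=
  {n | ∀ G ∈ V, eval ((endo F)^[n] α) G = 0}

/-- **A positive proportion of the endomorphisms of projective space over `ℚ`, of any given degree
`d ≥ 2` and in any dimension `N`**, satisfies the dynamical Mordell-Lang conjecture in the following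
strong form: for all points with homogeneous coordinates in a subfield of `ℂ` which can be embedded
in `ℝ`, e.g. all rational and all real points, and for all closed subsets `V` of `ℙᴺ` over `ℂ`, the
return set is finite or cofinite. -/
theorem result (N d : ℕ) (hd : 2 ≤ d) :
    ∃ c : ℝ, 0 < c ∧ ∃ B₀ : ℕ, ∀ B : ℕ, B₀ ≤ B → (box N d B).Finite ∧
      c * ((box N d B).ncard : ℝ) ≤
        (({F ∈ box N d B | IsEndo F ∧ ∀ K : Subfield ℂ, Nonempty (K →+* ℝ) →
          ∀ α : Fin (N + 1) → ℂ, α ≠ 0 → (∀ i, α i ∈ K) →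
            ∀ V : Set (MvPolynomial (Fin (N + 1)) ℂ), (∀ G ∈ V, ∃ e : ℕ, G.IsHomogeneous e) →
              (returnSet F α V).Finite ∨ (returnSet F α V)ᶜ.Finite}).ncard : ℝ) := by
  obtain ⟨c, hc, B₀, h⟩ := Pool.Agent.Helper26.PN.pn_main N hd
  refine ⟨c, hc, B₀, fun B hB => ?_⟩
  obtain ⟨hfin, h1⟩ := h B hB
  have hbox : box N d B = Pool.Agent.Helper26.PN.hbox N d B := rfl
  rw [← hbox] at hfin h1
  refine ⟨hfin, h1.trans (Nat.cast_le.2 (Set.ncard_le_ncard ?_ (hfin.subset fun F hF => hF.1)))⟩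
  rintro F ⟨hF, hE, hC⟩
  refine ⟨hF, hE, fun K hK α hα0 hα V hV => ?_⟩
  have hmap : Pool.Agent.Helper86.MQ.pm (fun i => map (Int.castRingHom ℂ) (F i)) = endo F := by
    funext x i
    rw [endo, Pool.Agent.Helper86.MQ.pm, eval_map, aeval_def]
    rfl
  have h2 := hC K hK α hα0 hα V hV
  rw [hmap] at h2
  refine h2.imp_right fun ⟨n₁, hn₁⟩ => (Set.finite_lt_nat n₁).subset fun n hn => ?_
  by_contra hcon
  exact hn (hn₁ n (not_lt.1 hcon))

end Pool.Agent.Results.MP_295d38_ag.ProjectiveSpace
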